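import Pool.Agent.Helper92.AC.Defs
import Pool.Agent.Helper22.AC.D1
import Pool.Agent.Helper11.AD.Small

/-!
# Project AC: from the block bounds at one centre to the pointwise bound `R^(3/5 + ε)` and the twelfth moment
-/

open MeasureTheory Real Set Filter Topology

set_option autoImplicit false

namespace Pool.Agent.Helper92.AC

open Pool.Agent.Helper22.AE
open Pool.Agent.Helper22.AC

/-- one block, in numbers: the sixth power -/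
private theorem six_le {R₀ N C e A S : ℝ} (hR : 1 ≤ R₀) (hN : 1 ≤ N) (hN2 : N ≤ R₀ ^ (3 / 5 : ℝ)) (hC : 1 ≤ C) (he : 0 < e) (hA : 0 ≤ A)
    (h1 : A ^ 6 ≤ S) (h2 : A ≤ C * R₀ ^ (1 / 2 : ℝ) * N ^ (1 / 2 : ℝ)) (hS : S ≤ C * R₀ ^ (4 + e) * N ^ (-2 : ℝ) * (1 + N ^ 3 / R₀)) :
    A ≤ 2 * C * R₀ ^ (3 / 5 + e) := by
  have hR0 : 0 < R₀ := by linarith
  have hN0 : 0 < N := by linarith
  rcases le_total N (R₀ ^ (1 / 5 : ℝ)) with h | h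
  · have h3 : N ^ (1 / 2 : ℝ) ≤ R₀ ^ (1 / 10 : ℝ) := by
      refine (Real.rpow_le_rpow hN0.le h (by norm_num)).trans (le_of_eq ?_)
      rw [← Real.rpow_mul hR0.le]
      norm_num
    have h4 : R₀ ^ (1 / 2 : ℝ) * R₀ ^ (1 / 10 : ℝ) = R₀ ^ (3 / 5 : ℝ) := by
      rw [← Real.rpow_add hR0]
      norm_num
    have h5 : R₀ ^ (3 / 5 : ℝ) ≤ R₀ ^ (3 / 5 + e) := Real.rpow_le_rpow_of_exponent_le hR (by linarith)
    calc A ≤ C * R₀ ^ (1 / 2 : ℝ) * N ^ (1 / 2 : ℝ) := h2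
      _ ≤ C * R₀ ^ (1 / 2 : ℝ) * R₀ ^ (1 / 10 : ℝ) := mul_le_mul_of_nonneg_left h3 (by positivity)
      _ = C * R₀ ^ (3 / 5 : ℝ) := by rw [mul_assoc, h4]
      _ ≤ 2 * C * R₀ ^ (3 / 5 + e) := by
        refine mul_le_mul (by linarith) h5 (by positivity) (by linarith)
  · have h3 : N ^ (-2 : ℝ) ≤ R₀ ^ (-(2 / 5) : ℝ) := by
      refine (Real.rpow_le_rpow_of_nonpos (by positivity) h (by norm_num)).trans (le_of_eq ?_)
      rw [← Real.rpow_mul hR0.le]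
      norm_num
    have h4 : N ^ (-2 : ℝ) * (N ^ 3 / R₀) ≤ R₀ ^ (-(2 / 5) : ℝ) := by
      have e1 : N ^ (-2 : ℝ) * (N ^ 3 / R₀) = N / R₀ := by
        rw [show (-2 : ℝ) = -((2 : ℕ) : ℝ) by norm_num, Real.rpow_neg hN0.le, Real.rpow_natCast]
        field_simp
      rw [e1]
      calc N / R₀ ≤ R₀ ^ (3 / 5 : ℝ) / R₀ := div_le_div_of_nonneg_right hN2 hR0.le
        _ = R₀ ^ (3 / 5 : ℝ) * R₀ ^ (-1 : ℝ) := by rw [Real.rpow_neg_one]; rfl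
        _ = R₀ ^ (-(2 / 5) : ℝ) := by
          rw [← Real.rpow_add hR0]
          norm_num
    have h5 : A ^ 6 ≤ (2 * C * R₀ ^ (3 / 5 + e)) ^ 6 := by
      calc A ^ 6 ≤ S := h1
        _ ≤ C * R₀ ^ (4 + e) * N ^ (-2 : ℝ) * (1 + N ^ 3 / R₀) := hS
        _ = C * R₀ ^ (4 + e) * (N ^ (-2 : ℝ) + N ^ (-2 : ℝ) * (N ^ 3 / R₀)) := by ring
        _ ≤ C * R₀ ^ (4 + e) * (R₀ ^ (-(2 / 5) : ℝ) + R₀ ^ (-(2 / 5) : ℝ)) := by gcongr
        _ = 2 * C * (R₀ ^ (4 + e) * R₀ ^ (-(2 / 5) : ℝ)) := by ring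
        _ = 2 * C * R₀ ^ (18 / 5 + e) := by
          rw [← Real.rpow_add hR0]
          congr 2
          ring
        _ ≤ (2 * C) ^ 6 * R₀ ^ ((3 / 5 + e) * 6) := by
          refine mul_le_mul ?_ (Real.rpow_le_rpow_of_exponent_le hR (by linarith)) (by positivity) (by positivity)
          exact le_self_pow₀ (by linarith) (by norm_num)
        _ = (2 * C * R₀ ^ (3 / 5 + e)) ^ 6 := by
          rw [mul_pow (2 * C) (R₀ ^ (3 / 5 + e)) 6, ← Real.rpow_natCast (R₀ ^ (3 / 5 + e)) 6, ← Real.rpow_mul hR0.le]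
          norm_num
    exact le_of_pow_le_pow_left₀ (by norm_num) (by positivity) h5

/-- one block, in numbers: the integral of the twelfth power -/
private theorem twelve_le {R₀ N C e S I : ℝ} (hR : 1 ≤ R₀) (hN : 1 ≤ N) (hN2 : N ≤ R₀ ^ (3 / 5 : ℝ)) (hC : 1 ≤ C) (he : 0 < e) (hS0 : 0 ≤ S)
    (hI0 : 0 ≤ I) (hS : S ≤ C * R₀ ^ (4 + e) * N ^ (-2 : ℝ) * (1 + N ^ 3 / R₀))
    (hI : I ≤ C * R₀ ^ (4 + e) * N ^ (-3 : ℝ) * (1 + N ^ 3 / R₀)) :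
    min S ((C * R₀ ^ (1 / 2 : ℝ) * N ^ (1 / 2 : ℝ)) ^ 6) * I ≤ 4 * C ^ 7 * R₀ ^ (7 + 2 * e) := by
  have hR0 : 0 < R₀ := by linarith
  have hN0 : 0 < N := by linarith
  have e0 : (C * R₀ ^ (1 / 2 : ℝ) * N ^ (1 / 2 : ℝ)) ^ 6 = C ^ 6 * R₀ ^ (3 : ℝ) * N ^ (3 : ℝ) := by
    rw [mul_pow, mul_pow, ← Real.rpow_natCast (R₀ ^ (1 / 2 : ℝ)) 6, ← Real.rpow_mul hR0.le, ← Real.rpow_natCast (N ^ (1 / 2 : ℝ)) 6,
      ← Real.rpow_mul hN0.le]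
    norm_num
  have e3 : N ^ (3 : ℝ) * N ^ (-3 : ℝ) = 1 := by
    rw [← Real.rpow_add hN0]
    norm_num
  have e7 : R₀ ^ (3 : ℝ) * R₀ ^ (4 + e) = R₀ ^ (7 + e) := by
    rw [← Real.rpow_add hR0]
    congr 1
    ring
  have g7 : R₀ ^ (7 + e) ≤ R₀ ^ (7 + 2 * e) := Real.rpow_le_rpow_of_exponent_le hR (by linarith)
  have hC7 : 1 ≤ C ^ 7 := one_le_pow₀ hC
  rcases le_total (N ^ 3) R₀ with h | h
  · have h1 : N ^ 3 / R₀ ≤ 1 := (div_le_one hR0).2 h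
    calc min S ((C * R₀ ^ (1 / 2 : ℝ) * N ^ (1 / 2 : ℝ)) ^ 6) * I ≤ (C ^ 6 * R₀ ^ (3 : ℝ) * N ^ (3 : ℝ)) * (C * R₀ ^ (4 + e) * N ^ (-3 : ℝ) * (1 + 1)) := by
          refine mul_le_mul ((min_le_right _ _).trans e0.le) (hI.trans ?_) hI0 (by positivity)
          gcongr
      _ = 2 * C ^ 7 * (R₀ ^ (3 : ℝ) * R₀ ^ (4 + e)) * (N ^ (3 : ℝ) * N ^ (-3 : ℝ)) := by ring
      _ = 2 * C ^ 7 * R₀ ^ (7 + e) := by rw [e3, e7, mul_one]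
      _ ≤ 4 * C ^ 7 * R₀ ^ (7 + 2 * e) := by
        refine mul_le_mul (by linarith) g7 (by positivity) (by positivity)
  · have h1 : 1 ≤ N ^ 3 / R₀ := (one_le_div hR0).2 h
    have h2 : N ^ (-2 : ℝ) * (N ^ 3 / R₀) = N / R₀ := by
      rw [show (-2 : ℝ) = -((2 : ℕ) : ℝ) by norm_num, Real.rpow_neg hN0.le, Real.rpow_natCast]
      field_simp
    have h3 : N ^ (-3 : ℝ) * (N ^ 3 / R₀) = 1 / R₀ := by
      rw [show (-3 : ℝ) = -((3 : ℕ) : ℝ) by norm_num, Real.rpow_neg hN0.le, Real.rpow_natCast]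
      field_simp
    have h4 : S ≤ 2 * C * R₀ ^ (4 + e) * (N / R₀) := by
      calc S ≤ C * R₀ ^ (4 + e) * N ^ (-2 : ℝ) * (1 + N ^ 3 / R₀) := hS
        _ ≤ C * R₀ ^ (4 + e) * N ^ (-2 : ℝ) * (N ^ 3 / R₀ + N ^ 3 / R₀) := by gcongr
        _ = 2 * C * R₀ ^ (4 + e) * (N ^ (-2 : ℝ) * (N ^ 3 / R₀)) := by ring
        _ = 2 * C * R₀ ^ (4 + e) * (N / R₀) := by rw [h2]
    have h5 : I ≤ 2 * C * R₀ ^ (4 + e) * (1 / R₀) := by
      calc I ≤ C * R₀ ^ (4 + e) * N ^ (-3 : ℝ) * (1 + N ^ 3 / R₀) := hI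
        _ ≤ C * R₀ ^ (4 + e) * N ^ (-3 : ℝ) * (N ^ 3 / R₀ + N ^ 3 / R₀) := by gcongr
        _ = 2 * C * R₀ ^ (4 + e) * (N ^ (-3 : ℝ) * (N ^ 3 / R₀)) := by ring
        _ = 2 * C * R₀ ^ (4 + e) * (1 / R₀) := by rw [h3]
    have e8 : R₀ ^ (4 + e) / R₀ = R₀ ^ (3 + e) := by
      rw [eq_comm, show (3 + e : ℝ) = (4 + e) - 1 by ring, Real.rpow_sub hR0, Real.rpow_one]
    have e9 : R₀ ^ (3 + e) * R₀ ^ (3 + e) * R₀ ^ (3 / 5 : ℝ) = R₀ ^ (33 / 5 + 2 * e) := by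
      rw [← Real.rpow_add hR0, ← Real.rpow_add hR0]
      congr 1
      ring
    have g8 : R₀ ^ (33 / 5 + 2 * e) ≤ R₀ ^ (7 + 2 * e) := Real.rpow_le_rpow_of_exponent_le hR (by linarith)
    have hC2 : C ^ 2 ≤ C ^ 7 := pow_le_pow_right₀ hC (by norm_num)
    calc min S ((C * R₀ ^ (1 / 2 : ℝ) * N ^ (1 / 2 : ℝ)) ^ 6) * I
        ≤ (2 * C * R₀ ^ (4 + e) * (N / R₀)) * (2 * C * R₀ ^ (4 + e) * (1 / R₀)) :=
          mul_le_mul ((min_le_left _ _).trans h4) h5 hI0 (by positivity)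
      _ = 4 * C ^ 2 * ((R₀ ^ (4 + e) / R₀) * (R₀ ^ (4 + e) / R₀) * N) := by ring
      _ ≤ 4 * C ^ 2 * ((R₀ ^ (4 + e) / R₀) * (R₀ ^ (4 + e) / R₀) * R₀ ^ (3 / 5 : ℝ)) := by gcongr
      _ = 4 * C ^ 2 * R₀ ^ (33 / 5 + 2 * e) := by rw [e8, e9]
      _ ≤ 4 * C ^ 7 * R₀ ^ (7 + 2 * e) := by
        refine mul_le_mul (by linarith) g8 (by positivity) (by positivity)

/-- one block -/
theorem blk_one {H : ℝ → ℝ} {φ : ℝ × ℝ → ℝ} {v c : ℝ × ℝ} (h : BlkC H φ v c) {e : ℝ} (he : 0 < e) :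
    ∃ C : ℝ, 1 ≤ C ∧ ∀ p n : ℕ, (2 : ℝ) ^ n ≤ ((2 : ℝ) ^ p) ^ (3 / 5 : ℝ) → ∀ σ : ℝ, (σ = 1 ∨ σ = -1) →
      ∃ W : ℝ → ℝ, Continuous W ∧ (∀ R, 0 ≤ W R) ∧
        (∀ R ∈ Icc ((2 : ℝ) ^ p) (2 * 2 ^ p), IsSupp (fun θ => R * H θ + σ * ((2 : ℝ) ^ p) ^ (-(1 / 2 : ℝ))) →
          ‖VKc φ (fun θ => R * H θ + σ * ((2 : ℝ) ^ p) ^ (-(1 / 2 : ℝ))) (((2 : ℝ) ^ p) ^ (-(1 / 2 : ℝ))) n (c.1 + R * v.1, c.2 + R * v.2)‖ ≤
            C * ((2 : ℝ) ^ p) ^ (3 / 5 + e) ∧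
          ‖VKc φ (fun θ => R * H θ + σ * ((2 : ℝ) ^ p) ^ (-(1 / 2 : ℝ))) (((2 : ℝ) ^ p) ^ (-(1 / 2 : ℝ))) n (c.1 + R * v.1, c.2 + R * v.2)‖ ^ 12 ≤ W R) ∧
        ∫ R in Icc ((2 : ℝ) ^ p) (2 * 2 ^ p), W R ≤ C * ((2 : ℝ) ^ p) ^ (7 + 2 * e) := by
  obtain ⟨C, hC, hB⟩ := h e he
  refine ⟨4 * C ^ 7, by nlinarith [one_le_pow₀ hC (n := 7)], fun p n hn σ hσ => ?_⟩
  have hR : (1 : ℝ) ≤ 2 ^ p := one_le_pow₀ (by norm_num)
  have hN : (1 : ℝ) ≤ 2 ^ n := one_le_pow₀ (by norm_num)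
  have hnp : n ≤ p := by
    have h1 : ((2 : ℝ) ^ p) ^ (3 / 5 : ℝ) ≤ (2 : ℝ) ^ p := by
      calc ((2 : ℝ) ^ p) ^ (3 / 5 : ℝ) ≤ ((2 : ℝ) ^ p) ^ (1 : ℝ) := Real.rpow_le_rpow_of_exponent_le hR (by norm_num)
        _ = (2 : ℝ) ^ p := Real.rpow_one _
    exact (pow_le_pow_iff_right₀ (by norm_num : (1 : ℝ) < 2)).1 (hn.trans h1)
  obtain ⟨S, G, hS0, hGc, hG0, hV, hS, hG⟩ := hB p n hnp σ hσ
  have e8 : (8 : ℝ) ^ n = ((2 : ℝ) ^ n) ^ 3 := by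
    rw [← pow_mul, mul_comm, pow_mul]
    norm_num
  have eh : (2 : ℝ) ^ ((n : ℝ) / 2) = ((2 : ℝ) ^ n) ^ (1 / 2 : ℝ) := by
    rw [← Real.rpow_natCast 2 n, ← Real.rpow_mul (by norm_num)]
    congr 1
    ring
  rw [e8] at hS hG
  have hI0 : 0 ≤ ∫ R in Icc ((2 : ℝ) ^ p) (2 * 2 ^ p), G R := integral_nonneg hG0
  refine ⟨fun R => min S ((C * ((2 : ℝ) ^ p) ^ (1 / 2 : ℝ) * ((2 : ℝ) ^ n) ^ (1 / 2 : ℝ)) ^ 6) * G R, continuous_const.mul hGc,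
    fun R => mul_nonneg (le_min hS0 (by positivity)) (hG0 R), ?_, ?_⟩
  · intro R hRI hs
    obtain ⟨h1, h2, h3⟩ := hV R hRI hs
    rw [eh] at h3
    refine ⟨?_, ?_⟩
    · refine (six_le hR hN hn hC he (norm_nonneg _) h1 h3 hS).trans ?_
      refine mul_le_mul_of_nonneg_right ?_ (by positivity)
      have h4 : C ≤ C ^ 7 := le_self_pow₀ hC (by norm_num)
      linarith
    · have h4 := pow_le_pow_left₀ (norm_nonneg _) h3 6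
      have h5 := mul_le_mul (le_min h1 h4) h2 (by positivity) (le_min hS0 (by positivity))
      refine le_trans (le_of_eq ?_) h5
      ring
  · rw [integral_const_mul]
    exact twelve_le hR hN hn hC he hS0 hI0 hS hG

private theorem p_le {η : ℝ} (hη : 0 < η) : ∃ K : ℝ, 1 ≤ K ∧ ∀ p : ℕ, (p : ℝ) + 1 ≤ K * ((2 : ℝ) ^ p) ^ η := by
  have hl : 0 < Real.log 2 := Real.log_pos (by norm_num)
  refine ⟨1 + 1 / (η * Real.log 2), by have : 0 < 1 / (η * Real.log 2) := by positivity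
                                       linarith, fun p => ?_⟩
  have h1 := Real.add_one_le_exp ((p : ℝ) * η * Real.log 2)
  have e1 : Real.exp ((p : ℝ) * η * Real.log 2) = ((2 : ℝ) ^ p) ^ η := by
    rw [← Real.rpow_natCast, ← Real.rpow_mul (by norm_num), Real.rpow_def_of_pos (by norm_num)]
    congr 1
    ring
  rw [e1] at h1
  have h2 : 0 < η * Real.log 2 := by positivity
  have h3 : (p : ℝ) = (1 / (η * Real.log 2)) * ((p : ℝ) * η * Real.log 2) := by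
    field_simp
  have h4 : (p : ℝ) * η * Real.log 2 ≤ ((2 : ℝ) ^ p) ^ η := by linarith
  have h5 : (p : ℝ) ≤ (1 / (η * Real.log 2)) * ((2 : ℝ) ^ p) ^ η := by
    rw [h3]
    exact mul_le_mul_of_nonneg_left h4 (by positivity)
  have h6 : (1 : ℝ) ≤ ((2 : ℝ) ^ p) ^ η := Real.one_le_rpow (one_le_pow₀ (by norm_num)) hη.le
  linarith

/-- dyadic radii -/
private theorem dya {H : ℝ → ℝ} (hH : IsSupp H) {φ : ℝ × ℝ → ℝ} (hφ : IsBump φ) {v c : ℝ × ℝ} (h : BlkC H φ v c) {e : ℝ} (he : 0 < e) :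
    ∃ (C : ℝ) (p₀ : ℕ), 1 ≤ C ∧ ∀ p : ℕ, p₀ ≤ p → ∃ W : ℝ → ℝ, Continuous W ∧ (∀ R, 0 ≤ W R) ∧
      (∀ R ∈ Icc ((2 : ℝ) ^ p) (2 * 2 ^ p), |cntc H (c.1 + R * v.1, c.2 + R * v.2) R - area H * R ^ 2| ≤ C * ((2 : ℝ) ^ p) ^ (3 / 5 + e) ∧
        |cntc H (c.1 + R * v.1, c.2 + R * v.2) R - area H * R ^ 2| ^ 12 ≤ W R) ∧
      ∫ R in Icc ((2 : ℝ) ^ p) (2 * 2 ^ p), W R ≤ C * ((2 : ℝ) ^ p) ^ (7 + e) := by
  obtain ⟨C₁, hC₁, hB⟩ := blk_one h (e := e / 4) (by positivity)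
  obtain ⟨C₂, R₁, hR₁, hE⟩ := errc_le_blocks hH hφ (τ := 1 / 2) (e2 := 1 / 20) (by norm_num) (by norm_num) (by norm_num)
  obtain ⟨K, hK, hp⟩ := p_le (η := e / 24) (by positivity)
  obtain ⟨p₀, hp₀⟩ := pow_unbounded_of_one_lt R₁ (by norm_num : (1 : ℝ) < 2)
  refine ⟨2 ^ 11 * (|C₂| ^ 12 + 2 * (K ^ 12 * C₁)) + (|C₂| + K * C₁), p₀, ?_, ?_⟩
  · have h1 : 1 ≤ K * C₁ := one_le_mul_of_one_le_of_one_le hK hC₁
    have h2 : 0 ≤ |C₂| ^ 12 := by positivity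
    have h3 : 0 ≤ K ^ 12 * C₁ := by positivity
    have h4 : 0 ≤ |C₂| := abs_nonneg _
    linarith
  intro p hpp
  obtain ⟨R₀, hR₀⟩ : ∃ R₀ : ℝ, R₀ = 2 ^ p := ⟨_, rfl⟩
  have hR : (1 : ℝ) ≤ R₀ := by
    rw [hR₀]
    exact one_le_pow₀ (by norm_num)
  have hR0 : 0 < R₀ := by linarith
  have hR1 : R₁ ≤ R₀ := by
    rw [hR₀]
    exact hp₀.le.trans (pow_le_pow_right₀ (by norm_num) hpp)
  obtain ⟨n1, hn1, hn2⟩ : ∃ n1 : ℕ, R₀ ^ (1 / 2 + 1 / 20 : ℝ) ≤ 2 ^ (n1 + 1) ∧ (2 : ℝ) ^ n1 ≤ R₀ ^ (1 / 2 + 1 / 20 : ℝ) := by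
    have h1 : 1 ≤ R₀ ^ (1 / 2 + 1 / 20 : ℝ) := Real.one_le_rpow hR (by norm_num)
    obtain ⟨n, h2, h3⟩ := exists_nat_pow_near h1 (by norm_num : (1 : ℝ) < 2)
    exact ⟨n, h3.le, h2⟩
  have hn3 : (2 : ℝ) ^ n1 ≤ R₀ ^ (3 / 5 : ℝ) := hn2.trans (Real.rpow_le_rpow_of_exponent_le hR (by norm_num))
  have hn4 : n1 ≤ p := by
    have h1 : R₀ ^ (3 / 5 : ℝ) ≤ R₀ := by
      calc R₀ ^ (3 / 5 : ℝ) ≤ R₀ ^ (1 : ℝ) := Real.rpow_le_rpow_of_exponent_le hR (by norm_num)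
        _ = R₀ := Real.rpow_one _
    have h2 : (2 : ℝ) ^ n1 ≤ 2 ^ p := by
      rw [← hR₀]
      exact hn3.trans h1
    exact (pow_le_pow_iff_right₀ (by norm_num : (1 : ℝ) < 2)).1 h2
  have hn5 : ((n1 + 1 : ℕ) : ℝ) ≤ K * R₀ ^ (e / 24) := by
    have h1 := hp p
    rw [← hR₀] at h1
    refine le_trans ?_ h1
    push_cast
    have : (n1 : ℝ) ≤ p := by exact_mod_cast hn4
    linarith
  have hB' : ∀ n : ℕ, ∀ σ : ℝ, ∃ W : ℝ → ℝ, Continuous W ∧ (∀ R, 0 ≤ W R) ∧ (n ∈ Finset.range (n1 + 1) → (σ = 1 ∨ σ = -1) →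
      (∀ R ∈ Icc R₀ (2 * R₀), IsSupp (fun θ => R * H θ + σ * R₀ ^ (-(1 / 2 : ℝ))) →
          ‖VKc φ (fun θ => R * H θ + σ * R₀ ^ (-(1 / 2 : ℝ))) (R₀ ^ (-(1 / 2 : ℝ))) n (c.1 + R * v.1, c.2 + R * v.2)‖ ≤
            C₁ * R₀ ^ (3 / 5 + e / 4) ∧
          ‖VKc φ (fun θ => R * H θ + σ * R₀ ^ (-(1 / 2 : ℝ))) (R₀ ^ (-(1 / 2 : ℝ))) n (c.1 + R * v.1, c.2 + R * v.2)‖ ^ 12 ≤ W R) ∧
        ∫ R in Icc R₀ (2 * R₀), W R ≤ C₁ * R₀ ^ (7 + 2 * (e / 4))) := by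
    intro n σ
    by_cases hc : n ∈ Finset.range (n1 + 1) ∧ (σ = 1 ∨ σ = -1)
    · have h1 : (2 : ℝ) ^ n ≤ ((2 : ℝ) ^ p) ^ (3 / 5 : ℝ) := by
        rw [← hR₀]
        refine le_trans (pow_le_pow_right₀ (by norm_num) ?_) hn3
        have := Finset.mem_range.1 hc.1
        omega
      obtain ⟨W, hWc, hW0, hW1, hW2⟩ := hB p n h1 σ hc.2
      rw [← hR₀] at hW1 hW2
      exact ⟨W, hWc, hW0, fun _ _ => ⟨hW1, hW2⟩⟩
    · exact ⟨fun _ => 0, continuous_const, fun _ => le_rfl, fun h1 h2 => absurd ⟨h1, h2⟩ hc⟩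
  choose W hWc hW0 hW using hB'
  have hg24 : (K * R₀ ^ (e / 24)) ^ 12 = K ^ 12 * R₀ ^ (e / 2) := by
    rw [mul_pow, ← Real.rpow_natCast (R₀ ^ (e / 24)) 12, ← Real.rpow_mul hR0.le]
    congr 2
    push_cast
    ring
  rw [← hR₀]
  refine ⟨fun R => 2 ^ 11 * (|C₂| ^ 12 * R₀ ^ 6 + ((n1 + 1 : ℕ) : ℝ) ^ 11 * ∑ n ∈ Finset.range (n1 + 1), (W n 1 R + W n (-1) R)), ?_, ?_, ?_, ?_⟩
  · refine continuous_const.mul (continuous_const.add (continuous_const.mul (continuous_finsetSum _ fun n _ => ?_)))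
    exact (hWc n 1).add (hWc n (-1))
  · intro R
    have : 0 ≤ ∑ n ∈ Finset.range (n1 + 1), (W n 1 R + W n (-1) R) := Finset.sum_nonneg fun n _ => add_nonneg (hW0 _ _ _) (hW0 _ _ _)
    positivity
  · intro R hRI
    obtain ⟨σ, hσ, hs, hle⟩ := hE R₀ hR1 R hRI (c.1 + R * v.1, c.2 + R * v.2) (n1 + 1) hn1
    have e1 : R₀ ^ (1 - 1 / 2 : ℝ) = R₀ ^ (1 / 2 : ℝ) := by norm_num
    rw [e1] at hle
    have h0 : C₂ * R₀ ^ (1 / 2 : ℝ) ≤ |C₂| * R₀ ^ (1 / 2 : ℝ) := mul_le_mul_of_nonneg_right (le_abs_self _) (by positivity)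
    have hle' := hle.trans (add_le_add h0 le_rfl)
    obtain ⟨A, hA⟩ : ∃ A : ℕ → ℝ, A = fun n => ‖VKc φ (fun θ => R * H θ + σ * R₀ ^ (-(1 / 2 : ℝ))) (R₀ ^ (-(1 / 2 : ℝ))) n (c.1 + R * v.1, c.2 + R * v.2)‖ :=
      ⟨_, rfl⟩
    have hA0 : ∀ n, 0 ≤ A n := fun n => by rw [hA]; exact norm_nonneg _
    have hle2 : |cntc H (c.1 + R * v.1, c.2 + R * v.2) R - area H * R ^ 2| ≤ |C₂| * R₀ ^ (1 / 2 : ℝ) + ∑ n ∈ Finset.range (n1 + 1), A n := by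
      rw [hA]
      exact hle'
    have hA1 : ∀ n ∈ Finset.range (n1 + 1), A n ≤ C₁ * R₀ ^ (3 / 5 + e / 4) ∧ A n ^ 12 ≤ W n 1 R + W n (-1) R := by
      intro n hn
      obtain ⟨h1, -⟩ := hW n σ hn hσ
      obtain ⟨h3, h4⟩ := h1 R hRI hs
      rw [hA]
      refine ⟨h3, h4.trans ?_⟩
      rcases hσ with h5 | h5
      · rw [h5]
        linarith [hW0 n (-1) R]
      · rw [h5]
        linarith [hW0 n 1 R]
    refine ⟨?_, ?_⟩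
    · have h1 : ∑ n ∈ Finset.range (n1 + 1), A n ≤ ((n1 + 1 : ℕ) : ℝ) * (C₁ * R₀ ^ (3 / 5 + e / 4)) := by
        have h2 := Finset.sum_le_card_nsmul _ _ _ fun n hn => (hA1 n hn).1
        rw [Finset.card_range, nsmul_eq_mul] at h2
        exact h2
      have h2 : ((n1 + 1 : ℕ) : ℝ) * (C₁ * R₀ ^ (3 / 5 + e / 4)) ≤ K * C₁ * R₀ ^ (3 / 5 + e) := by
        calc ((n1 + 1 : ℕ) : ℝ) * (C₁ * R₀ ^ (3 / 5 + e / 4)) ≤ (K * R₀ ^ (e / 24)) * (C₁ * R₀ ^ (3 / 5 + e / 4)) :=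
              mul_le_mul_of_nonneg_right hn5 (by positivity)
          _ = K * C₁ * (R₀ ^ (e / 24) * R₀ ^ (3 / 5 + e / 4)) := by ring
          _ = K * C₁ * R₀ ^ (e / 24 + (3 / 5 + e / 4)) := by rw [← Real.rpow_add hR0]
          _ ≤ K * C₁ * R₀ ^ (3 / 5 + e) :=
            mul_le_mul_of_nonneg_left (Real.rpow_le_rpow_of_exponent_le hR (by linarith)) (by positivity)
      have h3 : |C₂| * R₀ ^ (1 / 2 : ℝ) ≤ |C₂| * R₀ ^ (3 / 5 + e) :=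
        mul_le_mul_of_nonneg_left (Real.rpow_le_rpow_of_exponent_le hR (by linarith)) (abs_nonneg _)
      have h4 : 0 ≤ 2 ^ 11 * (|C₂| ^ 12 + 2 * (K ^ 12 * C₁)) * R₀ ^ (3 / 5 + e) := by positivity
      rw [add_mul, add_mul]
      linarith
    · have hsum0 : 0 ≤ ∑ n ∈ Finset.range (n1 + 1), A n := Finset.sum_nonneg fun n _ => hA0 n
      have h1 := pow_le_pow_left₀ (abs_nonneg _) hle2 12
      have h2 : (|C₂| * R₀ ^ (1 / 2 : ℝ) + ∑ n ∈ Finset.range (n1 + 1), A n) ^ 12 ≤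
          2 ^ (12 - 1) * ((|C₂| * R₀ ^ (1 / 2 : ℝ)) ^ 12 + (∑ n ∈ Finset.range (n1 + 1), A n) ^ 12) :=
        add_pow_le (by positivity) hsum0 12
      have h3 : (|C₂| * R₀ ^ (1 / 2 : ℝ)) ^ 12 = |C₂| ^ 12 * R₀ ^ 6 := by
        rw [mul_pow, ← Real.rpow_natCast (R₀ ^ (1 / 2 : ℝ)) 12, ← Real.rpow_mul hR0.le]
        have : (1 / 2 : ℝ) * ((12 : ℕ) : ℝ) = ((6 : ℕ) : ℝ) := by norm_num
        rw [this, Real.rpow_natCast]
      have h5 := pow_sum_div_card_le_sum_pow (s := Finset.range (n1 + 1)) (f := A) (fun n _ => hA0 n) 11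
      rw [Finset.card_range, div_le_iff₀ (by positivity)] at h5
      have h6 : ∑ n ∈ Finset.range (n1 + 1), A n ^ (11 + 1) ≤ ∑ n ∈ Finset.range (n1 + 1), (W n 1 R + W n (-1) R) :=
        Finset.sum_le_sum fun n hn => (hA1 n hn).2
      have h7 : (∑ n ∈ Finset.range (n1 + 1), A n) ^ (11 + 1) ≤ ((n1 + 1 : ℕ) : ℝ) ^ 11 * ∑ n ∈ Finset.range (n1 + 1), (W n 1 R + W n (-1) R) := by
        refine h5.trans ?_
        rw [mul_comm]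
        exact mul_le_mul_of_nonneg_left h6 (by positivity)
      rw [h3] at h2
      refine h1.trans (h2.trans ?_)
      have h8 : (2 : ℝ) ^ (12 - 1) = 2 ^ 11 := by norm_num
      rw [h8]
      refine mul_le_mul_of_nonneg_left (add_le_add le_rfl h7) (by norm_num)
  · have hint : ∀ (n : ℕ) (σ : ℝ), IntegrableOn (fun R => W n σ R) (Icc R₀ (2 * R₀)) := fun n σ =>
      (hWc n σ).continuousOn.integrableOn_compact isCompact_Icc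
    have hi : IntegrableOn (fun R => ∑ n ∈ Finset.range (n1 + 1), (W n 1 R + W n (-1) R)) (Icc R₀ (2 * R₀)) :=
      integrable_finsetSum (Finset.range (n1 + 1)) (f := fun n R => W n 1 R + W n (-1) R) fun n _ => (hint n 1).add (hint n (-1))
    have hc1 : IntegrableOn (fun _ : ℝ => |C₂| ^ 12 * R₀ ^ 6) (Icc R₀ (2 * R₀)) :=
      continuous_const.continuousOn.integrableOn_compact isCompact_Icc
    rw [integral_const_mul, integral_add hc1 (hi.const_mul _), setIntegral_const, Real.volume_real_Icc_of_le (by linarith), integral_const_mul,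
      integral_finsetSum (Finset.range (n1 + 1)) (f := fun n R => W n 1 R + W n (-1) R) fun n _ => (hint n 1).add (hint n (-1)), smul_eq_mul]
    have h1 : ∑ n ∈ Finset.range (n1 + 1), ∫ R in Icc R₀ (2 * R₀), (W n 1 R + W n (-1) R) ≤
        ((n1 + 1 : ℕ) : ℝ) * (2 * (C₁ * R₀ ^ (7 + 2 * (e / 4)))) := by
      have h2 : ∀ n ∈ Finset.range (n1 + 1), ∫ R in Icc R₀ (2 * R₀), (W n 1 R + W n (-1) R) ≤ 2 * (C₁ * R₀ ^ (7 + 2 * (e / 4))) := by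
        intro n hn
        rw [integral_add (hint n 1) (hint n (-1))]
        have h3 := (hW n 1 hn (Or.inl rfl)).2
        have h4 := (hW n (-1) hn (Or.inr rfl)).2
        linarith
      have h3 := Finset.sum_le_card_nsmul _ _ _ h2
      rw [Finset.card_range, nsmul_eq_mul] at h3
      exact h3
    have h2 : ((n1 + 1 : ℕ) : ℝ) ^ 11 * ∑ n ∈ Finset.range (n1 + 1), ∫ R in Icc R₀ (2 * R₀), (W n 1 R + W n (-1) R) ≤
        2 * (K ^ 12 * C₁) * R₀ ^ (7 + e) := by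
      calc ((n1 + 1 : ℕ) : ℝ) ^ 11 * ∑ n ∈ Finset.range (n1 + 1), ∫ R in Icc R₀ (2 * R₀), (W n 1 R + W n (-1) R)
          ≤ ((n1 + 1 : ℕ) : ℝ) ^ 11 * (((n1 + 1 : ℕ) : ℝ) * (2 * (C₁ * R₀ ^ (7 + 2 * (e / 4))))) := mul_le_mul_of_nonneg_left h1 (by positivity)
        _ = ((n1 + 1 : ℕ) : ℝ) ^ 12 * (2 * (C₁ * R₀ ^ (7 + 2 * (e / 4)))) := by ring
        _ ≤ (K * R₀ ^ (e / 24)) ^ 12 * (2 * (C₁ * R₀ ^ (7 + 2 * (e / 4)))) :=
          mul_le_mul_of_nonneg_right (pow_le_pow_left₀ (by positivity) hn5 12) (by positivity)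
        _ = 2 * (K ^ 12 * C₁) * (R₀ ^ (e / 2) * R₀ ^ (7 + 2 * (e / 4))) := by
          rw [hg24]
          ring
        _ = 2 * (K ^ 12 * C₁) * R₀ ^ (7 + e) := by
          rw [← Real.rpow_add hR0]
          congr 2
          ring
    have h3 : (2 * R₀ - R₀) * (|C₂| ^ 12 * R₀ ^ 6) ≤ |C₂| ^ 12 * R₀ ^ (7 + e) := by
      have h4 : (2 * R₀ - R₀) * (|C₂| ^ 12 * R₀ ^ 6) = |C₂| ^ 12 * R₀ ^ (7 : ℕ) := by ring
      rw [h4, ← Real.rpow_natCast R₀ 7]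
      refine mul_le_mul_of_nonneg_left (Real.rpow_le_rpow_of_exponent_le hR ?_) (by positivity)
      push_cast
      linarith
    have h4 : 0 ≤ (|C₂| + K * C₁) * R₀ ^ (7 + e) := by positivity
    have h5 : (2 : ℝ) ^ 11 * ((2 * R₀ - R₀) * (|C₂| ^ 12 * R₀ ^ 6) + ((n1 + 1 : ℕ) : ℝ) ^ 11 * ∑ n ∈ Finset.range (n1 + 1), ∫ R in Icc R₀ (2 * R₀), (W n 1 R + W n (-1) R)) ≤
        2 ^ 11 * (|C₂| ^ 12 * R₀ ^ (7 + e) + 2 * (K ^ 12 * C₁) * R₀ ^ (7 + e)) :=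
      mul_le_mul_of_nonneg_left (add_le_add h3 h2) (by norm_num)
    refine h5.trans ?_
    have e5 : (2 ^ 11 * (|C₂| ^ 12 + 2 * (K ^ 12 * C₁)) + (|C₂| + K * C₁)) * R₀ ^ (7 + e) =
      2 ^ 11 * (|C₂| ^ 12 * R₀ ^ (7 + e) + 2 * (K ^ 12 * C₁) * R₀ ^ (7 + e)) + (|C₂| + K * C₁) * R₀ ^ (7 + e) := by ring
    rw [e5]
    linarith

/-- the pointwise bound and the twelfth moment at one centre -/
theorem bounds {H : ℝ → ℝ} (hH : IsSupp H) {φ : ℝ × ℝ → ℝ} (hφ : IsBump φ) {v c : ℝ × ℝ} (h : BlkC H φ v c) :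
    (∀ ε : ℝ, 0 < ε → ∃ C : ℝ, ∀ R : ℝ, 1 ≤ R → |cntc H (c.1 + R * v.1, c.2 + R * v.2) R - area H * R ^ 2| ≤ C * R ^ (3 / 5 + ε)) ∧
    (∀ ε : ℝ, 0 < ε → ∃ C : ℝ, ∀ X : ℝ, 1 ≤ X →
      ∫⁻ R in Icc X (2 * X), ENNReal.ofReal (|cntc H (c.1 + R * v.1, c.2 + R * v.2) R - area H * R ^ 2| ^ 12) ≤
        ENNReal.ofReal (C * X ^ (7 + ε))) := by
  refine ⟨fun ε hε => ?_, fun ε hε => ?_⟩
  · obtain ⟨C, p₀, hC, hD⟩ := dya hH hφ h hε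
    obtain ⟨C₂, hC₂, hsm⟩ := Pool.Agent.Helper11.AD.small_rad H (2 ^ p₀)
    refine ⟨C + C₂, fun R hR => ?_⟩
    have hR0 : 0 < R := by linarith
    have h1 : 1 ≤ R ^ (3 / 5 + ε) := Real.one_le_rpow hR (by linarith)
    rcases le_total R (2 ^ p₀) with h2 | h2
    · refine (hsm R hR h2 _).trans ?_
      nlinarith
    · obtain ⟨p, hp1, hp2⟩ := exists_nat_pow_near hR (by norm_num : (1 : ℝ) < 2)
      have hpp : p₀ ≤ p := by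
        have h3 : (2 : ℝ) ^ p₀ < 2 ^ (p + 1) := lt_of_le_of_lt h2 hp2
        have h4 := (pow_lt_pow_iff_right₀ (by norm_num : (1 : ℝ) < 2)).1 h3
        omega
      obtain ⟨W, -, -, hW, -⟩ := hD p hpp
      refine ((hW R ⟨hp1, ?_⟩).1).trans ?_
      · rw [pow_succ] at hp2
        linarith
      · have h3 : ((2 : ℝ) ^ p) ^ (3 / 5 + ε) ≤ R ^ (3 / 5 + ε) := Real.rpow_le_rpow (by positivity) hp1 (by linarith)
        have h4 : C * ((2 : ℝ) ^ p) ^ (3 / 5 + ε) ≤ C * R ^ (3 / 5 + ε) := mul_le_mul_of_nonneg_left h3 (by linarith)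
        nlinarith
  · obtain ⟨C, p₀, hC, hD⟩ := dya hH hφ h hε
    obtain ⟨C₂, hC₂, hsm⟩ := Pool.Agent.Helper11.AD.small_rad H (2 * 2 ^ p₀)
    have hd : ∀ p : ℕ, p₀ ≤ p → ∫⁻ R in Icc ((2 : ℝ) ^ p) (2 * 2 ^ p),
        ENNReal.ofReal (|cntc H (c.1 + R * v.1, c.2 + R * v.2) R - area H * R ^ 2| ^ 12) ≤ ENNReal.ofReal (C * ((2 : ℝ) ^ p) ^ (7 + ε)) := by
      intro p hp
      obtain ⟨W, hWc, hW0, hW, hWI⟩ := hD p hp
      calc ∫⁻ R in Icc ((2 : ℝ) ^ p) (2 * 2 ^ p), ENNReal.ofReal (|cntc H (c.1 + R * v.1, c.2 + R * v.2) R - area H * R ^ 2| ^ 12)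
          ≤ ∫⁻ R in Icc ((2 : ℝ) ^ p) (2 * 2 ^ p), ENNReal.ofReal (W R) :=
            setLIntegral_mono' measurableSet_Icc fun R hR => ENNReal.ofReal_le_ofReal (hW R hR).2
        _ = ENNReal.ofReal (∫ R in Icc ((2 : ℝ) ^ p) (2 * 2 ^ p), W R) :=
            (ofReal_integral_eq_lintegral_ofReal (hWc.continuousOn.integrableOn_compact isCompact_Icc) (ae_of_all _ hW0)).symm
        _ ≤ _ := ENNReal.ofReal_le_ofReal hWI
    refine ⟨C + C * 2 ^ (7 + ε) + C₂ ^ 12, fun X hX => ?_⟩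
    have hX0 : 0 < X := by linarith
    have h7 : X ≤ X ^ (7 + ε) := by
      calc X = X ^ (1 : ℝ) := (Real.rpow_one X).symm
        _ ≤ X ^ (7 + ε) := Real.rpow_le_rpow_of_exponent_le hX (by linarith)
    rcases le_total X (2 ^ p₀) with h2 | h2
    · calc ∫⁻ R in Icc X (2 * X), ENNReal.ofReal (|cntc H (c.1 + R * v.1, c.2 + R * v.2) R - area H * R ^ 2| ^ 12)
          ≤ ∫⁻ _ in Icc X (2 * X), ENNReal.ofReal (C₂ ^ 12) :=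
            setLIntegral_mono' measurableSet_Icc fun R hR =>
              ENNReal.ofReal_le_ofReal (pow_le_pow_left₀ (abs_nonneg _) (hsm R (hX.trans hR.1) (hR.2.trans (by linarith)) _) 12)
        _ = ENNReal.ofReal (C₂ ^ 12) * ENNReal.ofReal X := by
            rw [setLIntegral_const, Real.volume_Icc]
            congr 2
            ring
        _ = ENNReal.ofReal (C₂ ^ 12 * X) := (ENNReal.ofReal_mul (by positivity)).symm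
        _ ≤ _ := by
            refine ENNReal.ofReal_le_ofReal ?_
            have h3 : C₂ ^ 12 * X ≤ C₂ ^ 12 * X ^ (7 + ε) := mul_le_mul_of_nonneg_left h7 (by positivity)
            have h4 : 0 ≤ (C + C * 2 ^ (7 + ε)) * X ^ (7 + ε) := by positivity
            rw [add_mul]
            linarith
    · obtain ⟨p, hp1, hp2⟩ := exists_nat_pow_near hX (by norm_num : (1 : ℝ) < 2)
      have hpp : p₀ ≤ p := by
        have h3 : (2 : ℝ) ^ p₀ < 2 ^ (p + 1) := lt_of_le_of_lt h2 hp2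
        have h4 := (pow_lt_pow_iff_right₀ (by norm_num : (1 : ℝ) < 2)).1 h3
        omega
      have hsub : Icc X (2 * X) ⊆ Icc ((2 : ℝ) ^ p) (2 * 2 ^ p) ∪ Icc ((2 : ℝ) ^ (p + 1)) (2 * 2 ^ (p + 1)) := by
        intro R hR
        rcases le_total R (2 * 2 ^ p) with h3 | h3
        · exact Or.inl ⟨hp1.trans hR.1, h3⟩
        · refine Or.inr ⟨?_, ?_⟩
          · rw [pow_succ]
            linarith
          · linarith [hR.2]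
      calc ∫⁻ R in Icc X (2 * X), ENNReal.ofReal (|cntc H (c.1 + R * v.1, c.2 + R * v.2) R - area H * R ^ 2| ^ 12)
          ≤ ∫⁻ R in Icc ((2 : ℝ) ^ p) (2 * 2 ^ p) ∪ Icc ((2 : ℝ) ^ (p + 1)) (2 * 2 ^ (p + 1)),
              ENNReal.ofReal (|cntc H (c.1 + R * v.1, c.2 + R * v.2) R - area H * R ^ 2| ^ 12) := lintegral_mono_set hsub
        _ ≤ _ := lintegral_union_le _ _ _
        _ ≤ ENNReal.ofReal (C * ((2 : ℝ) ^ p) ^ (7 + ε)) + ENNReal.ofReal (C * ((2 : ℝ) ^ (p + 1)) ^ (7 + ε)) :=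
            add_le_add (hd p hpp) (hd (p + 1) (by omega))
        _ = ENNReal.ofReal (C * ((2 : ℝ) ^ p) ^ (7 + ε) + C * ((2 : ℝ) ^ (p + 1)) ^ (7 + ε)) :=
            (ENNReal.ofReal_add (by positivity) (by positivity)).symm
        _ ≤ _ := by
            refine ENNReal.ofReal_le_ofReal ?_
            have h3 : ((2 : ℝ) ^ p) ^ (7 + ε) ≤ X ^ (7 + ε) := Real.rpow_le_rpow (by positivity) hp1 (by linarith)
            have h4 : ((2 : ℝ) ^ (p + 1)) ^ (7 + ε) = 2 ^ (7 + ε) * ((2 : ℝ) ^ p) ^ (7 + ε) := by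
              rw [pow_succ, mul_comm, Real.mul_rpow (by norm_num) (by positivity)]
            rw [h4]
            have h5 : C * ((2 : ℝ) ^ p) ^ (7 + ε) ≤ C * X ^ (7 + ε) := mul_le_mul_of_nonneg_left h3 (by linarith)
            have h6 : C * (2 ^ (7 + ε) * ((2 : ℝ) ^ p) ^ (7 + ε)) ≤ C * 2 ^ (7 + ε) * X ^ (7 + ε) := by
              rw [← mul_assoc]
              exact mul_le_mul_of_nonneg_left h3 (by positivity)
            have h8 : 0 ≤ C₂ ^ 12 * X ^ (7 + ε) := by positivity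
            rw [add_mul, add_mul]
            linarith

end Pool.Agent.Helper92.AC
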