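import Pool.Agent.Helper22.AC.Defs

/-!
# Project AC: the error at almost every centre (definitions)
-/

open MeasureTheory Real Set

set_option autoImplicit false

namespace Pool.Agent.Helper92.AC

open Pool.Agent.Helper22.AE
open Pool.Agent.Helper22.AC

/-- the bounds of the blocks for the dyadic radii at the centres `c + R v` -/
def BlkC (H : ℝ → ℝ) (φ : ℝ × ℝ → ℝ) (v c : ℝ × ℝ) : Prop :=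
  ∀ e : ℝ, 0 < e → ∃ C : ℝ, 1 ≤ C ∧ ∀ p n : ℕ, n ≤ p → ∀ σ : ℝ, (σ = 1 ∨ σ = -1) →
    ∃ (S : ℝ) (G : ℝ → ℝ), 0 ≤ S ∧ Continuous G ∧ (∀ R, 0 ≤ G R) ∧
      (∀ R ∈ Icc ((2 : ℝ) ^ p) (2 * 2 ^ p), IsSupp (fun θ => R * H θ + σ * ((2 : ℝ) ^ p) ^ (-(1 / 2 : ℝ))) →
        ‖VKc φ (fun θ => R * H θ + σ * ((2 : ℝ) ^ p) ^ (-(1 / 2 : ℝ))) (((2 : ℝ) ^ p) ^ (-(1 / 2 : ℝ))) n (c.1 + R * v.1, c.2 + R * v.2)‖ ^ 6 ≤ S ∧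
        ‖VKc φ (fun θ => R * H θ + σ * ((2 : ℝ) ^ p) ^ (-(1 / 2 : ℝ))) (((2 : ℝ) ^ p) ^ (-(1 / 2 : ℝ))) n (c.1 + R * v.1, c.2 + R * v.2)‖ ^ 6 ≤ G R ∧
        ‖VKc φ (fun θ => R * H θ + σ * ((2 : ℝ) ^ p) ^ (-(1 / 2 : ℝ))) (((2 : ℝ) ^ p) ^ (-(1 / 2 : ℝ))) n (c.1 + R * v.1, c.2 + R * v.2)‖ ≤
          C * ((2 : ℝ) ^ p) ^ (1 / 2 : ℝ) * (2 : ℝ) ^ ((n : ℝ) / 2)) ∧
      S ≤ C * ((2 : ℝ) ^ p) ^ (4 + e) * ((2 : ℝ) ^ n) ^ (-2 : ℝ) * (1 + 8 ^ n / 2 ^ p) ∧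
      ∫ R in Icc ((2 : ℝ) ^ p) (2 * 2 ^ p), G R ≤ C * ((2 : ℝ) ^ p) ^ (4 + e) * ((2 : ℝ) ^ n) ^ (-3 : ℝ) * (1 + 8 ^ n / 2 ^ p)

end Pool.Agent.Helper92.AC
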